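import Mathlib
import Pool.Agent.H.MP_f51a11_co.A

set_option autoImplicit false

namespace Pool.Agent.Results.MP_f51a11_co.Q2No

open Set Matroid

/-- `M` is representable over `ZMod p`. -/
def Rep (p : ℕ) {α : Type} (M : Matroid α) : Prop :=
  ∃ (m : ℕ) (v : α → Fin m → ZMod p), ∀ I, M.Indep I ↔ I ⊆ M.E ∧ LinearIndepOn (ZMod p) v I

/-- `M` is a finite simple rank-`n` matroid representable over `GF(p)` and over `GF(q)`. -/
def Adm (p q n : ℕ) {α : Type} (M : Matroid α) : Prop :=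
  M.E.Finite ∧ (∀ e ∈ M.E, ∀ f ∈ M.E, M.Indep {e, f}) ∧ M.eRank = n ∧ Rep p M ∧ Rep q M

/-- The points `e_i` and `e_i - ω e_j` (`i < j`, `ω ^ g = 1`) of the Dowling matroid `Q_n(C_g)`,
as vectors over `GF(p)`. -/
def Dow (p g n : ℕ) : Set (Fin n → ZMod p) :=
  {x | (∃ i, x = Pi.single i 1) ∨
    ∃ (i j : Fin n) (ω : ZMod p), i < j ∧ ω ^ g = 1 ∧ x = Pi.single i 1 - Pi.single j ω}

/-- `M` is isomorphic to the Dowling matroid `Q_n(C_g)` (for `g` dividing `p - 1`). -/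
def IsDow (p g n : ℕ) {α : Type} (M : Matroid α) : Prop :=
  ∃ f : α → Fin n → ZMod p, BijOn f M.E (Dow p g n) ∧
    ∀ I ⊆ M.E, (M.Indep I ↔ LinearIndepOn (ZMod p) f I)

open Pool.Agent.H.MP_5d01ce_co Pool.Agent.H.MP_f51a11_co Submodule Module in
theorem result :
    (∀ n, 2 ≤ n → ∃ (α : Type) (M : Matroid α), Adm 5 7 n M ∧
      (Dow 5 (Nat.gcd (5 - 1) (7 - 1)) n).ncard < M.E.ncard) ∧
    ¬ ∀ p q : ℕ, p.Prime → q.Prime → p ≠ q → ∃ N : ℕ, ∀ n, N ≤ n →
      ∀ (α : Type) (M : Matroid α), Adm p q n M →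
        (∀ (β : Type) (M' : Matroid β), Adm p q n M' → M'.E.ncard ≤ M.E.ncard) →
          IsDow p (Nat.gcd (p - 1) (q - 1)) n M := by
  have sq : ∀ ω : ZMod 5, ω ^ Nat.gcd (5 - 1) (7 - 1) = 1 → ω = 1 ∨ ω = -1 := by decide
  have z : ∀ a ∈ ({0, 1} : Finset (ZMod 5)), ∀ b ∈ ({0, 1, -1} : Finset (ZMod 5)),
      a = 0 ∨ b = 0 → -2 ≠ a - b := by decide
  classical
  have f5 : Fact (Nat.Prime 5) := ⟨by norm_num⟩
  have f7 : Fact (Nat.Prime 7) := ⟨by norm_num⟩
  have key : ∀ n, 2 ≤ n → ∃ (α : Type) (M : Matroid α), Adm 5 7 n M ∧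
      (Dow 5 (Nat.gcd (5 - 1) (7 - 1)) n).ncard < M.E.ncard := by
    intro n hn
    obtain ⟨k, rfl⟩ := Nat.exists_eq_add_of_le' hn
    let x : Fin (k + 2) → ZMod 5 := Pi.single 0 1 - Pi.single 1 2
    have hx : x ∉ Dow 5 (Nat.gcd (5 - 1) (7 - 1)) (k + 2) := by
      rintro (⟨i, h⟩ | ⟨i, j, ω, a, b, h⟩)
      · refine z _ ?_ 0 (by simp) (Or.inr rfl) (by simpa [x] using congrFun h 1)
        rw [Pi.single_apply]
        split_ifs <;> simp
      · refine z _ ?_ _ ?_ ?_ (by simpa [x] using congrFun h 1)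
        · rw [Pi.single_apply]
          split_ifs <;> simp
        · rw [Pi.single_apply]
          rcases sq ω b with rfl | rfl <;> split_ifs <;> simp
        · by_cases q : 1 = i
          · exact Or.inr (Pi.single_eq_of_ne (q ▸ a.ne) _)
          · exact Or.inl (Pi.single_eq_of_ne q _)
    obtain ⟨M, hE, r⟩ := vm (ZMod 5) id (toFinite (insert x (Dow 5 (Nat.gcd (5 - 1) (7 - 1)) (k + 2))))
    have ld : ∀ e ∈ M.E, ∃ i, e i = 1 ∧ ∀ l < i, e l = 0 := by
      rw [hE]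
      rintro e (rfl | ⟨i, rfl⟩ | ⟨i, j, ω, a, b, rfl⟩)
      · exact ⟨0, by simp [x], by simp⟩
      · exact ⟨i, by simp, fun l h => by simp [h.ne]⟩
      · exact ⟨i, by simp [a.ne], fun l h => by simp [h.ne, (h.trans a).ne]⟩
    have dd : ∀ e ∈ M.E, ∃ d : Fin (k + 2) × Fin (k + 2) × ℤ × ℤ, e = ed (ZMod 5) d ∧
        |d.2.2.1| ≤ 1 ∧ |d.2.2.2| ≤ 2 ∧ (e ≠ x → |d.2.2.2| ≤ 1) := by
      rw [hE]
      rintro e (rfl | ⟨i, rfl⟩ | ⟨i, j, ω, a, b, rfl⟩)
      · exact ⟨(0, 1, 1, -2), by simp [x, ed, sub_eq_add_neg, Pi.single_neg], by simp, by simp,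
          fun q => absurd rfl q⟩
      · exact ⟨(i, i, 1, 0), by simp [ed], by simp, by simp, by simp⟩
      · rcases sq ω b with rfl | rfl
        · exact ⟨(i, j, 1, -1), by simp [ed, sub_eq_add_neg, Pi.single_neg], by simp, by simp,
            by simp⟩
        · exact ⟨(i, j, 1, 1), by simp [ed, Pi.single_neg], by simp, by simp, by simp⟩
    choose! d d1 d2 using dd
    have c5 : ∀ c : ℤ, |c| ≤ 3 → (c : ZMod 5) = 0 → c = 0 := fun c a b => by
      rw [ZMod.intCast_zmod_eq_zero_iff_dvd] at b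
      rw [abs_le] at a
      omega
    have c7 : ∀ c : ℤ, |c| ≤ 3 → (c : ZMod 7) = 0 → c = 0 := fun c a b => by
      rw [ZMod.intCast_zmod_eq_zero_iff_dvd] at b
      rw [abs_le] at a
      omega
    refine ⟨_, M, ⟨toFinite _, fun e he f hf => ?_, ?_, ⟨_, id, fun I => ?_⟩,
      _, fun e => ed (ZMod 7) (d e), fun I => ?_⟩, by rw [hE, ncard_insert_of_notMem hx]; omega⟩
    · rw [r _ (insert_subset he (singleton_subset_iff.2 hf))]
      obtain ⟨i, a1, a2⟩ := ld e he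
      obtain ⟨j, b1, b2⟩ := ld f hf
      have n0 : f ≠ 0 := by rintro rfl; exact zero_ne_one b1
      by_cases q : e = f
      · simpa [q] using n0
      rw [linearIndepOn_insert (by simpa using q), image_singleton, mem_span_singleton]
      refine ⟨by simpa using n0, ?_⟩
      rintro ⟨c, hc⟩
      obtain rfl : c • f = e := hc
      simp only [Pi.smul_apply, smul_eq_mul] at a1 a2
      rcases lt_trichotomy i j with h | rfl | h
      · rw [b2 i h, mul_zero] at a1; exact zero_ne_one a1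
      · rw [b1, mul_one] at a1; exact q (by rw [a1, one_smul])
      · have := a2 j h
        rw [b1, mul_one] at this
        rw [this, zero_mul] at a1; exact zero_ne_one a1
    · rw [← eRk_ground, r.rk (toFinite _) subset_rfl, image_id]
      have : span (ZMod 5) M.E = ⊤ := by
        rw [eq_top_iff, ← (Pi.basisFun (ZMod 5) (Fin (k + 2))).span_eq]
        refine span_mono ?_
        rintro _ ⟨i, rfl⟩
        rw [hE]
        exact Or.inr (Or.inl ⟨i, by simp⟩)
      rw [this]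
      simp
    · rw [← and_iff_right_of_imp Indep.subset_ground]
      exact and_congr_right (r I)
    · rw [← and_iff_right_of_imp Indep.subset_ground]
      refine and_congr_right fun s => ?_
      rw [r I s, ← same c5 c7 d x (toFinite I) fun e he => d2 e (s he)]
      exact linearIndepOn_congr fun e he => d1 e (s he)
  refine ⟨key, fun h => ?_⟩
  obtain ⟨N, h⟩ := h 5 7 f5.1 f7.1 (by norm_num)
  obtain ⟨α0, M0, a0, b0⟩ := key (N + 2) (by omega)
  have bd : ∀ (α : Type) (M : Matroid α), Adm 5 7 (N + 2) M → M.E.ncard ≤ 5 ^ (N + 2) := by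
    rintro α M ⟨a, b, c, ⟨m, v, hv⟩, -⟩
    have r : Rp (ZMod 5) M v := fun I s => (hv I).trans (and_iff_right s)
    rw [← eRk_ground, r.rk a subset_rfl, Nat.cast_inj] at c
    have := Module.natCard_eq_pow_finrank (K := ZMod 5) (V := span (ZMod 5) (v '' M.E))
    rw [c, Nat.card_zmod] at this
    rw [← this, ← InjOn.ncard_image (f := v) fun e he f hf q =>
      ((hv _).1 (b e he f hf)).2.injOn (by simp) (by simp) q]
    exact ncard_le_ncard subset_span (toFinite _)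
  obtain ⟨_, ⟨α, M, a, rfl⟩, hm⟩ := exists_max_image
    {m | ∃ (α : Type) (M : Matroid α), Adm 5 7 (N + 2) M ∧ M.E.ncard = m} id
    ((finite_Iic (5 ^ (N + 2))).subset fun _ ⟨α, M, a, b⟩ => b ▸ bd α M a) ⟨_, α0, M0, a0, rfl⟩
  obtain ⟨f, hf, -⟩ := h (N + 2) (by omega) α M a fun β M' t => hm _ ⟨β, M', t, rfl⟩
  have := hm _ ⟨α0, M0, a0, rfl⟩
  rw [← hf.image_eq, hf.injOn.ncard_image] at b0
  exact b0.not_ge this

end Pool.Agent.Results.MP_f51a11_co.Q2No
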